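import Mathlib
import Pool.Agent.Y152.BD.Nv

/-!
Project RP (radical parameters): the statements of the jobs (first part, Mathlib only).

A complex number `t` is *radical* if some power `t ^ N`, `N > 0`, is rational. For radical `t` and
three rational numbers `a` of distinct absolute values the value of the minimal polynomial of `t` at
one of them has a prime factor larger than `D`, with finitely many exceptions `t`.
-/

set_option autoImplicit false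

namespace Pool.Agent.Y152.RP

open Polynomial NumberField IsDedekindDomain

/-- Some positive power of `t` is rational. -/
def Rad (t : ℂ) : Prop := ∃ N : ℕ, 0 < N ∧ ∃ q : ℚ, t ^ N = (q : ℂ)

/-- `z` has no prime factor larger than `D`. -/
def Smo (D : ℕ) (z : ℤ) : Prop := ∀ p : ℕ, p.Prime → D < p → ¬ (p : ℤ) ∣ z

/-- The value at `1` of the primitive minimal polynomial of `s` has no prime factor larger than
`D`. -/
def Bad1 (D : ℕ) (s : ℂ) : Prop :=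
  ∃ G : ℤ[X], Irreducible G ∧ aeval s G = 0 ∧ Smo D (G.eval 1)

/-- The degree of a number over the rational numbers. -/
noncomputable def dg (t : ℂ) : ℕ := Module.finrank ℚ (IntermediateField.adjoin ℚ {t})

/-! ### RP-SCALE and RP-EXP -/

/-- Bad at `a` means that `t / a` is bad at `1`. -/
def ScaleStm : Prop := ∀ (D : ℕ) (t : ℂ) (a : ℚ), a ≠ 0 → ∀ G : ℤ[X], Irreducible G →
  aeval t G = 0 → Smo D (BD.Nv G a) → Bad1 D (t / (a : ℂ))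

/-- If `t` has degree `f` over the field of `t ^ f` then the minimal polynomial of `(t / a) ^ f`
has the same value at `1` as the minimal polynomial of `t / a`. -/
def ExpStm : Prop := ∀ (D : ℕ) (t : ℂ) (a : ℚ) (f : ℕ), 0 < f → a ≠ 0 → IsAlgebraic ℚ t →
  dg t = f * dg (t ^ f) → Bad1 D (t / (a : ℂ)) → Bad1 D (t ^ f / (a : ℂ) ^ f)

/-! ### RP-STRA and RP-STRB -/

/-- Radical numbers in the abelian field generated by a root of unity `ζ` and `r = √q`. -/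
def StrAStm : Prop := ∀ (N : ℕ) (ζ r : ℂ) (q : ℚ), 0 < N → IsPrimitiveRoot ζ N → 0 < q →
  r ^ 2 = (q : ℂ) → ∀ x ∈ IntermediateField.adjoin ℚ ({ζ, r} : Set ℂ), x ≠ 0 → Rad x →
    ∃ n : ℕ, 0 < n ∧ ∃ ω : ℂ, IsPrimitiveRoot ω n ∧ ∃ q' : ℚ, 0 < q' ∧ x ^ 2 = ω * (q' : ℂ)

/-- The structure of radical numbers. -/
def StructStm : Prop := ∀ t : ℂ, t ≠ 0 → Rad t → ∃ f : ℕ, 0 < f ∧
  (∃ n : ℕ, 0 < n ∧ ∃ ω : ℂ, IsPrimitiveRoot ω n ∧ ∃ q : ℚ, 0 < q ∧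
    (t ^ f) ^ 2 = ω * (q : ℂ)) ∧ dg t = f * dg (t ^ f)

/-! ### RP-LOG and RP-LOGSUM -/

/-- The logarithmic inequality. -/
def LogStm : Prop := ∀ κ z : ℝ, 0 ≤ κ → κ < 1 → -1 ≤ z → z ≤ 1 →
  z ^ 2 * Real.log (1 - κ) - κ * z * (1 - z) ≤ Real.log (1 - κ * z)

/-- The sum over numbers of absolute value `1` with small power sums. -/
def LogSumStm : Prop := ∀ (S : Finset ℂ), (∀ w ∈ S, ‖w‖ = 1) → ∀ u v : ℕ, 0 < u → 0 < v → u ≠ v →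
  (S.card : ℝ) / 3 * Real.log (((u : ℝ) + v) / 2) -
      2 * Real.log (2 * ((u : ℝ) + v)) * (‖∑ w ∈ S, w‖ + ‖∑ w ∈ S, w ^ 2‖) ≤
    ∑ w ∈ S, Real.log (‖((Real.sqrt v : ℝ) : ℂ) - ((Real.sqrt u : ℝ) : ℂ) * w‖ ^ 2)

/-! ### RP-POWA, RP-PARS and RP-POW -/

/-- The conjugates of a square root `τ` of a rational multiple of a root of unity, and the absolute
values of their power sums of exponents prime to the order. -/
def PowAStm : Prop := ∀ (n : ℕ) (ω τ : ℂ) (q : ℚ), 0 < n → IsPrimitiveRoot ω n → 0 < q →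
  τ ^ 2 = ω * (q : ℂ) → ∀ H : ℤ[X], Irreducible H → aeval τ H = 0 →
    Nat.totient n ≤ H.natDegree ∧ H.natDegree ≤ 2 * Nat.totient n ∧
    H.natDegree = (H.aroots ℂ).toFinset.card ∧
    (∀ z ∈ (H.aroots ℂ).toFinset, ∃ ω' : ℂ, IsPrimitiveRoot ω' n ∧ z ^ 2 = ω' * (q : ℂ)) ∧
    (∀ j : ℕ, 0 < j → j.Coprime (2 * n) → ‖∑ z ∈ (H.aroots ℂ).toFinset, z ^ j‖ =
      Real.sqrt q ^ (j - 1) * ‖∑ z ∈ (H.aroots ℂ).toFinset, z‖) ∧
    (∀ j : ℕ, 0 < j → j.Coprime n → ‖∑ z ∈ (H.aroots ℂ).toFinset, z ^ (2 * j)‖ =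
      (q : ℝ) ^ (j - 1) * ‖∑ z ∈ (H.aroots ℂ).toFinset, z ^ 2‖)

/-- Parseval for sets of roots of unity. -/
def ParsStm : Prop := ∀ (N : ℕ) (S : Finset ℂ), 0 < N → (∀ w ∈ S, w ^ N = 1) →
  ∑ j ∈ Finset.range N, ‖∑ w ∈ S, w ^ j‖ ^ 2 = (N : ℝ) * S.card

/-- The power sums of the conjugates of a square root of a rational multiple of a root of unity. -/
def PowStm : Prop := ∀ (n : ℕ) (ω τ : ℂ) (q : ℚ), 0 < n → IsPrimitiveRoot ω n → 0 < q →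
  τ ^ 2 = ω * (q : ℂ) → ∀ H : ℤ[X], Irreducible H → aeval τ H = 0 →
    Nat.totient n ≤ H.natDegree ∧ H.natDegree = (H.aroots ℂ).toFinset.card ∧
    (∀ z ∈ (H.aroots ℂ).toFinset, ‖z‖ ^ 2 = (q : ℝ)) ∧
    ‖∑ z ∈ (H.aroots ℂ).toFinset, z‖ ≤ 2 * Real.sqrt n * Real.sqrt q ∧
    ‖∑ z ∈ (H.aroots ℂ).toFinset, z ^ 2‖ ≤ 2 * Real.sqrt n * (q : ℝ)

/-! ### RP-TOT -/

/-- The totient is larger than any multiple of the square root. -/
def TotStm : Prop := ∀ K : ℕ, ∃ N : ℕ, ∀ n : ℕ, N ≤ n → (K : ℝ) * Real.sqrt n ≤ Nat.totient n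

/-! ### RP-CYC -/

/-- The smooth divisors of the homogenized values of the cyclotomic polynomials. -/
def CycStm : Prop := ∀ (D n : ℕ) (a : ℚ), 0 < a → 2 < n → D < n → ∀ k : ℤ,
  k ∣ BD.Nv (cyclotomic n ℤ) a → Smo D k → k.natAbs ≤ D.factorial

/-! ### RP-LARGE -/

/-- Roots of unity of large order. -/
def LargeStm : Prop := ∀ D : ℕ, ∃ N : ℕ, ∀ n : ℕ, N ≤ n → ∀ (ω τ : ℂ) (q : ℚ),
  IsPrimitiveRoot ω n → 0 < q → τ ^ 2 = ω * (q : ℂ) → Bad1 D τ → q = 1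

/-! ### RP-UNIT -/

/-- the absolute value of a finite place -/
noncomputable def fv {K : Type} [Field K] [NumberField K] (w : HeightOneSpectrum (𝓞 K)) (x : K) :
    ℝ := FinitePlace.mk w x

/-- `w` is not above a prime number `≤ D` -/
def Away {K : Type} [Field K] [NumberField K] (D : ℕ) (w : HeightOneSpectrum (𝓞 K)) : Prop :=
  ∀ p : ℕ, p.Prime → p ≤ D → fv w (p : K) = 1

/-- Bad at `1`, in terms of absolute values. -/
def UnitStm : Prop := ∀ (K : Type) [Field K] [NumberField K] (φ : K →+* ℂ) (D : ℕ) (κ : K)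
  (b : ℚ), (∀ p : ℕ, p.Prime → D < p → ¬ (p : ℤ) ∣ b.num ∧ ¬ p ∣ b.den) →
  Bad1 D (φ κ / (b : ℂ)) → ∀ w : HeightOneSpectrum (𝓞 K), Away D w →
    fv w ((b : K) - κ) = max 1 (fv w κ)

/-! ### RP-COMB -/

/-- The combinatorics of the six terms. -/
def CombStm : Prop := ∀ (K E : Type) [Field K] [Field E] (φ : K →+* E) (A U : Fin 3 → E) (κ : E),
  κ ≠ 0 → (∀ i, A i ≠ 0) → (∀ i, U i ≠ 0) → (∀ i, U i = A i - κ) →
  (∀ i j, i ≠ j → ∀ m : ℕ, 0 < m → ∀ c : K, (A i / A j) ^ m ≠ φ c) →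
  ∀ T : Fin 6 → E, T = ![A 1 * U 0, -(A 2 * U 0), A 2 * U 1, -(A 0 * U 1), A 0 * U 2,
    -(A 1 * U 2)] →
  (∀ (i : Fin 6) (s : Finset (Fin 6)), (∀ j, j ∈ s ↔ ∃ c : K, T j = φ c * T i) →
    ∑ j ∈ s, T j = 0) → False

/-! ### RP-FINA, RP-FINB -/

/-- The solutions. -/
def Sol (K : Type) [Field K] [NumberField K] (D : ℕ) (a : Fin 3 → ℚ) (e : ℕ) (κ : K) : Prop :=
  0 < e ∧ κ ≠ 0 ∧ ∀ i, ∀ w : HeightOneSpectrum (𝓞 K), Away D w →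
    fv w ((a i : K) ^ e - κ) = max 1 (fv w κ)

/-- Finitely many solutions with given exponent. -/
def FinAStm : Prop := ∀ (K : Type) [Field K] [NumberField K] [IsGalois ℚ K],
  (∃ z : K, z ^ 2 = -1) → ∀ (D : ℕ) (a : Fin 3 → ℚ), (∀ i, a i ≠ 0) →
  (∀ i j, i ≠ j → |a i| ≠ |a j|) →
  (∀ i, ∀ p : ℕ, p.Prime → D < p → ¬ (p : ℤ) ∣ (a i).num ∧ ¬ p ∣ (a i).den) →
  ∀ e : ℕ, {κ : K | Sol K D a e κ}.Finite

/-- Finitely many exponents. -/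
def FinBStm : Prop := ∀ (K : Type) [Field K] [NumberField K] [IsGalois ℚ K],
  (∃ z : K, z ^ 2 = -1) → ∀ (D : ℕ) (a : Fin 3 → ℚ), (∀ i, a i ≠ 0) →
  (∀ i j, i ≠ j → |a i| ≠ |a j|) →
  (∀ i, ∀ p : ℕ, p.Prime → D < p → ¬ (p : ℤ) ∣ (a i).num ∧ ¬ p ∣ (a i).den) →
  {e : ℕ | ∃ κ : K, Sol K D a e κ}.Finite

/-! ### RP-SMALL -/

/-- Roots of unity of bounded order. -/
def SmallStm : Prop := ∀ (D N : ℕ) (a : Fin 3 → ℚ), (∀ i, a i ≠ 0) →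
  (∀ i j, i ≠ j → |a i| ≠ |a j|) →
  {t : ℂ | t ≠ 0 ∧ (∃ f : ℕ, 0 < f ∧ (∃ n : ℕ, 0 < n ∧ n ≤ N ∧ ∃ ω : ℂ, IsPrimitiveRoot ω n ∧
    ∃ q : ℚ, 0 < q ∧ (t ^ f) ^ 2 = ω * (q : ℂ)) ∧ dg t = f * dg (t ^ f)) ∧
    ∀ i, Bad1 D (t / (a i : ℂ))}.Finite

/-! ### RP-ARITH -/

/-- The arithmetic theorem. -/
def ArithStm : Prop := ∀ (D L M : ℕ), L + 2 ≤ M → ∀ α : Fin M → ℚ, (∀ l, α l ≠ 0) →
  (∀ l l', l ≠ l' → |α l| ≠ |α l'|) →
  {t : ℂ | Rad t ∧ ¬ ∃ f : Fin L → Fin M, Function.Injective f ∧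
    ∃ G : ℤ[X], Irreducible G ∧ aeval t G = 0 ∧
      ∀ l, ∃ p : ℕ, p.Prime ∧ D < p ∧ (p : ℤ) ∣ BD.Nv G (α (f l))}.Finite

end Pool.Agent.Y152.RP
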