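import Mathlib
import Pool.Agent.Y152.RP.Stm
import Pool.Agent.Y742.AR.Germ

/-!
Project RP (radical parameters): the statement of RP-CLASS (germs of sequences of elements of a
number field, definitions in `Pool.Agent.Y742.AR.Germ`).
-/

set_option autoImplicit false

namespace Pool.Agent.Y152.RP

open Polynomial NumberField IsDedekindDomain

/-- The class sums of a vanishing sum of germs of `S`-units vanish. -/
def ClassStm : Prop := ∀ (K : Type) [Field K] [NumberField K] [IsGalois ℚ K] (𝒰 : Ultrafilter ℕ)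
  (D : Pool.Agent.Y742.SF.PD K) (n : ℕ) (u : Fin n → Pool.Agent.Y742.AR.GK K 𝒰), (∀ i, u i ≠ 0) →
  (∀ i, Pool.Agent.Y742.AR.TI D 𝒰 (Pool.Agent.Y742.AR.rep (u i))) →
  (∀ i, Pool.Agent.Y742.AR.TI D 𝒰 (Pool.Agent.Y742.AR.rep (u i)⁻¹)) →
  ∑ i, u i = 0 → ∀ (i : Fin n) (s : Finset (Fin n)),
    (∀ j, j ∈ s ↔ ∃ c : K, u j = Pool.Agent.Y742.AR.cg 𝒰 c * u i) → ∑ j ∈ s, u j = 0

/-- the two absolute values are the same -/
theorem fv_eq {K : Type} [Field K] [NumberField K] (w : HeightOneSpectrum (𝓞 K)) (x : K) :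
    fv w x = Pool.Agent.Y742.SF.fv w x := rfl

end Pool.Agent.Y152.RP
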