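import Mathlib
import Pool.Agent.Y152.RP.Stm
import Pool.Agent.Y152.RP.Stm2
import Pool.Agent.Y742.SF.PDex
import Pool.Agent.Y742.AR.Germ

/-!
Project RP, job RP-FINB: finitely many exponents (the file of helper815, with one word changed).
-/

set_option autoImplicit false
set_option linter.unusedSectionVars false
set_option linter.unusedSimpArgs false

namespace Pool.Agent.Y152.RPx.FinB

open Polynomial NumberField IsDedekindDomain Filter
open Pool.Agent.Y742.SF (PD exists_PD finite_primes)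
open Pool.Agent.Y742.AR (GK gm gm_eq gm_rep rep cg cg_eq rep_mul rep_neg rep_inv rep_ne rep_eq TI)
open Pool.Agent.Y152.RP (Away Sol ClassStm CombStm FinBStm)

variable {K : Type} [Field K] [NumberField K]

/-! ### Places -/

open Pool.Agent.Y742.SF (fv)

theorem fv_neg (w : HeightOneSpectrum (𝓞 K)) (x : K) : fv w (-x) = fv w x := by
  have h1 : fv w (-1 : K) = 1 := by
    have h2 : fv w (-1 : K) * fv w (-1 : K) = 1 := by
      rw [← Pool.Agent.Y742.SF.fv_mul]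
      norm_num
      exact Pool.Agent.Y742.SF.fv_one w
    have h3 := Pool.Agent.Y742.SF.fv_nonneg w (-1 : K)
    nlinarith
  have h2 : -x = (-1) * x := by ring
  rw [h2, Pool.Agent.Y742.SF.fv_mul, h1, one_mul]

theorem fv_inv (w : HeightOneSpectrum (𝓞 K)) (x : K) : fv w x⁻¹ = (fv w x)⁻¹ := by
  rw [← one_div, Pool.Agent.Y742.SF.fv_div, Pool.Agent.Y742.SF.fv_one, one_div]

theorem away_prime {D : ℕ} {w : HeightOneSpectrum (𝓞 K)} (h : Away D w) (p : ℕ) (hp : p.Prime)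
    (hpD : p ≤ D) : fv w (p : K) = 1 := h p hp hpD

/-- natural numbers with small prime factors are units away from `D` -/
theorem fv_nat {D : ℕ} {w : HeightOneSpectrum (𝓞 K)} (h : Away D w) (n : ℕ) (hn : n ≠ 0)
    (hD : ∀ p : ℕ, p.Prime → D < p → ¬ p ∣ n) : fv w (n : K) = 1 := by
  induction n using Nat.recOnMul with
  | zero => exact absurd rfl hn
  | one => rw [Nat.cast_one]; exact Pool.Agent.Y742.SF.fv_one w
  | prime p hp =>
    refine away_prime h p hp ?_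
    by_contra hlt
    exact hD p hp (not_le.1 hlt) (dvd_refl p)
  | mul a b iha ihb =>
    have ha : a ≠ 0 := fun h0 => hn (by rw [h0, zero_mul])
    have hb : b ≠ 0 := fun h0 => hn (by rw [h0, mul_zero])
    rw [Nat.cast_mul, Pool.Agent.Y742.SF.fv_mul,
      iha ha fun p hp hlt hd => hD p hp hlt (hd.mul_right b),
      ihb hb fun p hp hlt hd => hD p hp hlt (hd.mul_left a), one_mul]

theorem fv_rat {D : ℕ} {w : HeightOneSpectrum (𝓞 K)} (h : Away D w) (q : ℚ) (hq : q ≠ 0)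
    (hD : ∀ p : ℕ, p.Prime → D < p → ¬ (p : ℤ) ∣ q.num ∧ ¬ p ∣ q.den) : fv w (q : K) = 1 := by
  have h1 : fv w (q.den : K) = 1 := fv_nat h q.den q.den_nz fun p hp hlt => (hD p hp hlt).2
  have h2 : fv w ((q.num.natAbs : ℕ) : K) = 1 :=
    fv_nat h q.num.natAbs (Int.natAbs_ne_zero.2 (Rat.num_ne_zero.2 hq)) fun p hp hlt hd =>
      (hD p hp hlt).1 (Int.natCast_dvd.2 hd)
  rw [Nat.cast_natAbs] at h2
  have h3 : fv w (q.num : K) = 1 := by
    rcases Int.natAbs_eq q.num with h4 | h4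
    · rw [h4]
      push_cast
      exact h2
    · rw [h4]
      push_cast
      rw [fv_neg]
      exact h2
  rw [Rat.cast_def, Pool.Agent.Y742.SF.fv_div, h3, h1, div_one]

/-- the places which are not away from `D` are finite in number -/
theorem finite_not_away (D : ℕ) : {w : HeightOneSpectrum (𝓞 K) | ¬ Away D w}.Finite := by
  refine (finite_primes (K := K) D.factorial (Nat.factorial_ne_zero D)).subset fun w hw => ?_
  have hw' : ¬ Away D w := hw
  unfold Away at hw'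
  push Not at hw'
  obtain ⟨p, hp, hpD, hne⟩ := hw'
  have h1 : (p : 𝓞 K) ∈ w.asIdeal := by
    by_contra hmem
    apply hne
    have h2 := (Pool.Agent.Y742.SF.fv_eq_one_iff w (p : 𝓞 K)).2 hmem
    have h3 : (((p : 𝓞 K)) : K) = (p : K) := by simp
    rw [h3] at h2
    exact h2
  obtain ⟨c, hc⟩ := Nat.dvd_factorial hp.pos hpD
  show ((D.factorial : ℕ) : 𝓞 K) ∈ w.asIdeal
  rw [hc]
  push_cast
  exact Ideal.mul_mem_right _ _ h1

/-- there is a place away from `D` -/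
theorem exists_away (D : ℕ) : ∃ w : HeightOneSpectrum (𝓞 K), Away D w := by
  obtain ⟨p, hpD, hp⟩ := Nat.exists_infinite_primes (D + 1)
  have hp0 : (p : ℤ) ≠ 0 := by exact_mod_cast hp.ne_zero
  have hprime : Prime (p : ℤ) := Nat.prime_iff_prime_int.1 hp
  have hI : (Ideal.span {(p : ℤ)}).IsPrime := (Ideal.span_singleton_prime hp0).2 hprime
  obtain ⟨⟨P, hP1, hP2⟩⟩ := (Ideal.span {(p : ℤ)}).nonempty_primesOver (S := 𝓞 K)
  have hpP : (p : 𝓞 K) ∈ P := by
    have h1 : (p : ℤ) ∈ Ideal.span {(p : ℤ)} := Ideal.mem_span_singleton_self _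
    rw [hP2.over, Ideal.mem_comap] at h1
    simpa using h1
  have hne : P ≠ ⊥ := by
    rintro rfl
    have h1 : (p : 𝓞 K) = 0 := hpP
    exact hp.ne_zero (by exact_mod_cast h1)
  refine ⟨⟨P, hP1, hne⟩, fun q hq hqD => ?_⟩
  have h1 : (q : 𝓞 K) ∉ P := by
    intro hqP
    have hcop : Nat.Coprime p q := (Nat.coprime_primes hp hq).2 (by omega)
    have h2 := Nat.isCoprime_iff_coprime.2 hcop
    obtain ⟨x, y, hxy⟩ := h2
    apply hP1.ne_top
    rw [Ideal.eq_top_iff_one]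
    have h3 : (1 : 𝓞 K) = (x : 𝓞 K) * (p : 𝓞 K) + (y : 𝓞 K) * (q : 𝓞 K) := by
      exact_mod_cast congrArg (fun z : ℤ => (z : 𝓞 K)) hxy.symm
    rw [h3]
    exact P.add_mem (P.mul_mem_left _ hpP) (P.mul_mem_left _ hqP)
  have h2 := (Pool.Agent.Y742.SF.fv_eq_one_iff ⟨P, hP1, hne⟩ (q : 𝓞 K)).2 h1
  have h3 : (((q : 𝓞 K)) : K) = (q : K) := by simp
  rw [h3] at h2
  exact h2

/-! ### Unit germs -/

section germs

variable [IsGalois ℚ K] (D : PD K) (𝒰 : Ultrafilter ℕ)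

/-- a germ of units away from the places of `D` -/
def UN (y : GK K 𝒰) : Prop :=
  y ≠ 0 ∧ ∀ᶠ t in (𝒰 : Filter ℕ), ∀ w : HeightOneSpectrum (𝓞 K), (∀ v, w ≠ D.P v) →
    fv w (rep y t) = 1

variable {D 𝒰}

theorem UN.mul {x y : GK K 𝒰} (hx : UN D 𝒰 x) (hy : UN D 𝒰 y) : UN D 𝒰 (x * y) := by
  refine ⟨mul_ne_zero hx.1 hy.1, ?_⟩
  filter_upwards [hx.2, hy.2, rep_mul x y] with t h1 h2 h3 w hw
  rw [h3, Pool.Agent.Y742.SF.fv_mul, h1 w hw, h2 w hw, one_mul]

theorem UN.neg {x : GK K 𝒰} (hx : UN D 𝒰 x) : UN D 𝒰 (-x) := by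
  refine ⟨neg_ne_zero.2 hx.1, ?_⟩
  filter_upwards [hx.2, rep_neg x] with t h1 h3 w hw
  rw [h3, fv_neg, h1 w hw]

theorem UN.inv {x : GK K 𝒰} (hx : UN D 𝒰 x) : UN D 𝒰 x⁻¹ := by
  refine ⟨inv_ne_zero hx.1, ?_⟩
  filter_upwards [hx.2, rep_inv x hx.1] with t h1 h3 w hw
  rw [h3, fv_inv, h1 w hw, inv_one]

theorem UN.ti {x : GK K 𝒰} (hx : UN D 𝒰 x) : TI D 𝒰 (rep x) := by
  refine ⟨1, one_ne_zero, ?_⟩
  filter_upwards [hx.2] with t h1 w hw
  have h2 : (((1 : 𝓞 K)) : K) = 1 := by simp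
  rw [h2, one_mul]
  exact (h1 w hw).le

theorem UN_gm (f : ℕ → K) (h0 : ∀ t, f t ≠ 0)
    (h : ∀ t, ∀ w : HeightOneSpectrum (𝓞 K), (∀ v, w ≠ D.P v) → fv w (f t) = 1) :
    UN D 𝒰 (gm 𝒰 f) := by
  have hr : ∀ᶠ t in (𝒰 : Filter ℕ), rep (gm 𝒰 f) t = f t := rep_eq _ _ rfl
  constructor
  · intro h1
    have h2 : gm 𝒰 f = gm 𝒰 (fun _ => 0) := by
      rw [h1]
      exact (map_zero (gm 𝒰)).symm
    obtain ⟨t, ht⟩ := ((gm_eq 𝒰 _ _).1 h2).exists
    exact h0 t ht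
  · filter_upwards [hr] with t ht w hw
    rw [ht]
    exact h t w hw

end germs

/-- a germ of nonzero numbers is nonzero -/
theorem gm_ne {𝒰 : Ultrafilter ℕ} (f : ℕ → K) (h0 : ∀ t, f t ≠ 0) : gm 𝒰 f ≠ 0 := by
  intro h1
  have h2 : gm 𝒰 f = gm 𝒰 (fun _ => 0) := by
    rw [h1]
    exact (map_zero (gm 𝒰)).symm
  obtain ⟨t, ht⟩ := ((gm_eq 𝒰 _ _).1 h2).exists
  exact h0 t ht

theorem finB : ClassStm → CombStm → FinBStm := by
  intro hClass hComb K _ _ _ hi D a ha0 hab haD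
  by_contra hinf
  have hinf' : (Set.ofPred fun e : ℕ => ∃ κ : K, Sol K D a e κ).Infinite := hinf
  obtain ⟨e, he⟩ : ∃ e : ℕ → ℕ, e = Nat.nth (fun e : ℕ => ∃ κ : K, Sol K D a e κ) := ⟨_, rfl⟩
  have hmono : StrictMono e := by
    rw [he]
    exact Nat.nth_strictMono hinf'
  have hsol : ∀ t, ∃ κ : K, Sol K D a (e t) κ := by
    intro t
    rw [he]
    exact Nat.nth_mem_of_infinite hinf' t
  choose κ hκ using hsol
  obtain ⟨𝒰, h𝒰⟩ : ∃ 𝒰 : Ultrafilter ℕ, 𝒰 = Filter.hyperfilter ℕ := ⟨_, rfl⟩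
  obtain ⟨D', hD'⟩ := exists_PD hi {w : HeightOneSpectrum (𝓞 K) | ¬ Away D w} (finite_not_away D)
  have haw : ∀ w : HeightOneSpectrum (𝓞 K), (∀ v, w ≠ D'.P v) → Away D w := by
    intro w hw
    by_contra h
    obtain ⟨v, hv⟩ := hD' w h
    exact hw v hv
  obtain ⟨w0, hw0⟩ := exists_away (K := K) D
  -- the germs
  obtain ⟨x, hx⟩ : ∃ x : Fin 3 → ℕ → K, x = fun i t => (a i : K) ^ e t - κ t := ⟨_, rfl⟩
  have haK : ∀ i, (a i : K) ≠ 0 := fun i => by exact_mod_cast ha0 i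
  have hfx : ∀ i t w, Away D w → fv w (x i t) = max 1 (fv w (κ t)) := by
    intro i t w hw
    rw [hx]
    exact (hκ t).2.2 i w hw
  have hx0 : ∀ i t, x i t ≠ 0 := by
    intro i t h0
    have h1 := hfx i t w0 hw0
    rw [h0, Pool.Agent.Y742.SF.fv_zero] at h1
    have h2 : (1 : ℝ) ≤ max 1 (fv w0 (κ t)) := le_max_left _ _
    linarith
  obtain ⟨A, hA⟩ : ∃ A : Fin 3 → GK K 𝒰, A = fun i => gm 𝒰 (fun t => (a i : K) ^ e t) := ⟨_, rfl⟩
  obtain ⟨U, hU⟩ : ∃ U : Fin 3 → GK K 𝒰, U = fun i => gm 𝒰 (x i) := ⟨_, rfl⟩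
  have hAun : ∀ i, UN D' 𝒰 (A i) := by
    intro i
    rw [hA]
    refine UN_gm _ (fun t => pow_ne_zero _ (haK i)) fun t w hw => ?_
    rw [Pool.Agent.Y742.SF.fv_pow, fv_rat (haw w hw) (a i) (ha0 i) (haD i), one_pow]
  have hU0 : ∀ i, U i ≠ 0 := by
    intro i
    rw [hU]
    exact gm_ne _ (hx0 i)
  have hUU : ∀ i j, UN D' 𝒰 (U i / U j) := by
    intro i j
    have h1 : U i / U j = gm 𝒰 (fun t => x i t / x j t) := by
      rw [div_eq_iff (hU0 j), hU]
      show gm 𝒰 (x i) = gm 𝒰 (fun t => x i t / x j t) * gm 𝒰 (x j)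
      rw [← map_mul]
      congr 1
      funext t
      exact (div_mul_cancel₀ _ (hx0 j t)).symm
    rw [h1]
    refine UN_gm _ (fun t => div_ne_zero (hx0 i t) (hx0 j t)) fun t w hw => ?_
    rw [Pool.Agent.Y742.SF.fv_div, hfx i t w (haw w hw), hfx j t w (haw w hw), div_self]
    have h2 : (1 : ℝ) ≤ max 1 (fv w (κ t)) := le_max_left _ _
    linarith
  have hUA : ∀ i, U i = A i - gm 𝒰 κ := by
    intro i
    rw [hU, hA]
    show gm 𝒰 (x i) = gm 𝒰 (fun t => (a i : K) ^ e t) - gm 𝒰 κ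
    rw [← map_sub, hx]
    rfl
  refine hComb K (GK K 𝒰) (cg 𝒰) A U (gm 𝒰 κ) (gm_ne _ fun t => (hκ t).2.1) (fun i => (hAun i).1)
    hU0 hUA ?_ _ rfl ?_
  · -- independence
    intro i j hij m hm c hc
    have h1 : (A i / A j) ^ m = gm 𝒰 (fun t => (((a i : K) / (a j : K)) ^ e t) ^ m) := by
      have h2 : A i / A j = gm 𝒰 (fun t => ((a i : K) / (a j : K)) ^ e t) := by
        rw [div_eq_iff (hAun j).1, hA]
        show gm 𝒰 (fun t => (a i : K) ^ e t) = gm 𝒰 (fun t => ((a i : K) / (a j : K)) ^ e t) *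
          gm 𝒰 (fun t => (a j : K) ^ e t)
        rw [← map_mul]
        congr 1
        funext t
        show (a i : K) ^ e t = ((a i : K) / (a j : K)) ^ e t * (a j : K) ^ e t
        rw [← mul_pow, div_mul_cancel₀ _ (haK j)]
      rw [h2, ← map_pow]
      rfl
    rw [h1, cg_eq, gm_eq] at hc
    have h2 : {t : ℕ | (((a i : K) / (a j : K)) ^ e t) ^ m = c}.Infinite := by
      intro hfin
      have h3 := Filter.compl_mem_hyperfilter_of_finite hfin
      rw [h𝒰] at hc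
      obtain ⟨t, ht1, ht2⟩ := (hc.and h3).exists
      exact ht2 ht1
    obtain ⟨t1, ht1, t2, ht2, hne⟩ := h2.nontrivial
    apply hne
    have h3 : (((a i : K) / (a j : K)) ^ e t1) ^ m = (((a i : K) / (a j : K)) ^ e t2) ^ m := by
      rw [show (((a i : K) / (a j : K)) ^ e t1) ^ m = c from ht1,
        show (((a i : K) / (a j : K)) ^ e t2) ^ m = c from ht2]
    have h4 : ((a i / a j) ^ e t1) ^ m = ((a i / a j) ^ e t2) ^ m := by exact_mod_cast h3
    have h5 : |a i / a j| ^ (e t1 * m) = |a i / a j| ^ (e t2 * m) := by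
      rw [pow_mul, pow_mul, ← abs_pow, ← abs_pow, ← abs_pow, ← abs_pow, h4]
    have h6 : 0 < |a i / a j| := abs_pos.2 (div_ne_zero (ha0 i) (ha0 j))
    have h7 : |a i / a j| ≠ 1 := by
      intro h
      rw [abs_div, div_eq_one_iff_eq (abs_ne_zero.2 (ha0 j))] at h
      exact hab i j hij h
    have h8 := pow_right_injective₀ h6 h7 h5
    exact hmono.injective (Nat.eq_of_mul_eq_mul_right hm h8)
  · -- the class sums
    intro i s hs
    obtain ⟨T, hT⟩ : ∃ T : Fin 6 → GK K 𝒰, T = ![A 1 * U 0, -(A 2 * U 0), A 2 * U 1,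
      -(A 0 * U 1), A 0 * U 2, -(A 1 * U 2)] := ⟨_, rfl⟩
    rw [← hT] at hs ⊢
    have hun : ∀ j, UN D' 𝒰 (T j / U 0) := by
      intro j
      rw [hT]
      fin_cases j
      · show UN D' 𝒰 (A 1 * U 0 / U 0)
        rw [mul_div_assoc]
        exact (hAun 1).mul (hUU 0 0)
      · show UN D' 𝒰 (-(A 2 * U 0) / U 0)
        rw [neg_div, mul_div_assoc]
        exact ((hAun 2).mul (hUU 0 0)).neg
      · show UN D' 𝒰 (A 2 * U 1 / U 0)
        rw [mul_div_assoc]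
        exact (hAun 2).mul (hUU 1 0)
      · show UN D' 𝒰 (-(A 0 * U 1) / U 0)
        rw [neg_div, mul_div_assoc]
        exact ((hAun 0).mul (hUU 1 0)).neg
      · show UN D' 𝒰 (A 0 * U 2 / U 0)
        rw [mul_div_assoc]
        exact (hAun 0).mul (hUU 2 0)
      · show UN D' 𝒰 (-(A 1 * U 2) / U 0)
        rw [neg_div, mul_div_assoc]
        exact ((hAun 1).mul (hUU 2 0)).neg
    have hsum : ∑ j, T j = 0 := by
      rw [hT]
      simp only [Fin.sum_univ_six]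
      show A 1 * U 0 + -(A 2 * U 0) + A 2 * U 1 + -(A 0 * U 1) + A 0 * U 2 + -(A 1 * U 2) = 0
      rw [hUA 0, hUA 1, hUA 2]
      ring
    have h1 := hClass K 𝒰 D' 6 (fun j => T j / U 0) (fun j => (hun j).1) (fun j => (hun j).ti)
      (fun j => (hun j).inv.ti) (by rw [← Finset.sum_div, hsum, zero_div]) i s (fun j => by
        rw [hs j]
        constructor
        · rintro ⟨c, hc⟩
          refine ⟨c, ?_⟩
          show T j / U 0 = cg 𝒰 c * (T i / U 0)
          rw [hc, mul_div_assoc]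
        · rintro ⟨c, hc⟩
          refine ⟨c, ?_⟩
          have hc' : T j / U 0 = cg 𝒰 c * (T i / U 0) := hc
          rw [← mul_div_assoc, div_left_inj' (hU0 0)] at hc'
          exact hc')
    rw [← Finset.sum_div] at h1
    rcases div_eq_zero_iff.1 h1 with h2 | h2
    · exact h2
    · exact absurd h2 (hU0 0)

end Pool.Agent.Y152.RPx.FinB
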