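import Mathlib
import Pool.Agent.Y152.RP.Stm

/-!
Project RP: roots of unity as parameters (helper file).
-/

set_option autoImplicit false

namespace Pool.Agent.Y152.RP

open Polynomial

/-- An algebraic number is a zero of an irreducible integral polynomial. -/
theorem exists_irr {t : ℂ} (ht : IsAlgebraic ℤ t) : ∃ G : ℤ[X], Irreducible G ∧ aeval t G = 0 := by
  classical
  obtain ⟨F, hF0, hFt⟩ := ht
  obtain ⟨f, hf, u, hu⟩ := WfDvdMonoid.exists_factors F hF0
  have h1 : aeval t f.prod = 0 := by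
    rw [← hu, map_mul] at hFt
    rcases mul_eq_zero.1 hFt with h | h
    · exact h
    · exfalso
      have h4 := (u.isUnit.map (aeval t : ℤ[X] →ₐ[ℤ] ℂ)).ne_zero
      exact h4 h
  rw [map_multiset_prod, Multiset.prod_eq_zero_iff, Multiset.mem_map] at h1
  obtain ⟨G, hG, hGt⟩ := h1
  exact ⟨G, hf G hG, hGt⟩

/-- A radical number is algebraic. -/
theorem alg_of_rad {t : ℂ} (h : Rad t) : IsAlgebraic ℤ t := by
  obtain ⟨N, hN, q, hq⟩ := h
  have hden : (q.den : ℤ) ≠ 0 := by exact_mod_cast q.den_ne_zero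
  refine ⟨C (q.den : ℤ) * X ^ N - C q.num, ?_, ?_⟩
  · intro h0
    have h1 := congrArg (fun P => P.coeff N) h0
    simp only [coeff_sub, coeff_C_mul, coeff_X_pow, if_true, mul_one, coeff_C, hN.ne', if_false,
      sub_zero, coeff_zero] at h1
    exact hden h1
  · rw [map_sub, map_mul, map_pow, aeval_X, aeval_C, aeval_C, hq]
    simp only [eq_intCast, Int.cast_natCast]
    have h2 : (q.den : ℚ) * q = q.num := by
      rw [mul_comm]
      exact Rat.mul_den_eq_num q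
    have h3 : ((q.den : ℂ)) * (q : ℂ) = (q.num : ℂ) := by exact_mod_cast congrArg (Rat.cast : ℚ → ℂ) h2
    rw [h3, sub_self]

/-- Roots of unity: for all but finitely many of them the values of the minimal polynomial at all the
`α l`, `|α l| ≠ 0, 1`, have large prime factors. -/
theorem unity (hS : ScaleStm) (hL : LargeStm) {L M : ℕ} (hM : L ≤ M) (α : Fin M → ℚ)
    (hα0 : ∀ l, α l ≠ 0) (hα1 : ∀ l, |α l| ≠ 1) (D : ℕ) :
    {t : ℂ | (∃ N : ℕ, 0 < N ∧ t ^ N = 1) ∧ ¬ ∃ f : Fin L → Fin M, Function.Injective f ∧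
      ∃ G : ℤ[X], Irreducible G ∧ aeval t G = 0 ∧
        ∀ l, ∃ p : ℕ, p.Prime ∧ D < p ∧ (p : ℤ) ∣ BD.Nv G (α (f l))}.Finite := by
  classical
  obtain ⟨N₀, hN₀⟩ := hL D
  have hfin : (⋃ n ∈ Finset.range N₀, {t : ℂ | t ^ (2 * (n + 1)) = 1}).Finite := by
    refine Set.Finite.biUnion (Finset.finite_toSet _) fun n _ => ?_
    have h1 : (X ^ (2 * (n + 1)) - 1 : ℂ[X]) ≠ 0 := by
      rw [← C_1]
      exact X_pow_sub_C_ne_zero (by omega) 1
    refine ((X ^ (2 * (n + 1)) - 1 : ℂ[X]).roots.toFinset.finite_toSet).subset fun t ht => ?_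
    rw [Finset.mem_coe, Multiset.mem_toFinset, mem_roots h1, IsRoot.def, eval_sub, eval_pow, eval_X,
      eval_one]
    exact sub_eq_zero.2 ht
  refine hfin.subset ?_
  rintro t ⟨⟨N, hN, htN⟩, hbad⟩
  have ht0 : t ≠ 0 := by
    rintro rfl
    rw [zero_pow hN.ne'] at htN
    exact zero_ne_one htN
  have hprim : IsPrimitiveRoot (t ^ 2) (orderOf (t ^ 2)) := IsPrimitiveRoot.orderOf _
  have hpos : 0 < orderOf (t ^ 2) := by
    refine orderOf_pos_iff.2 (isOfFinOrder_iff_pow_eq_one.2 ⟨N, hN, ?_⟩)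
    rw [← pow_mul, mul_comm, pow_mul, htN, one_pow]
  by_cases hlt : orderOf (t ^ 2) < N₀
  · refine Set.mem_biUnion (Finset.mem_coe.2 (Finset.mem_range.2
      (show orderOf (t ^ 2) - 1 < N₀ by omega))) ?_
    show t ^ (2 * (orderOf (t ^ 2) - 1 + 1)) = 1
    rw [Nat.sub_add_cancel hpos, pow_mul]
    exact pow_orderOf_eq_one _
  exfalso
  apply hbad
  obtain ⟨G, hG, hGt⟩ := exists_irr (alg_of_rad ⟨N, hN, 1, by rw [htN, Rat.cast_one]⟩)
  refine ⟨Fin.castLE hM, Fin.castLE_injective hM, G, hG, hGt, fun l => ?_⟩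
  by_contra hcon
  push Not at hcon
  have h1 : Bad1 D (t / ((α (Fin.castLE hM l) : ℚ) : ℂ)) := hS D t _ (hα0 _) G hG hGt hcon
  have hαC : ((α (Fin.castLE hM l) : ℚ) : ℂ) ≠ 0 := by exact_mod_cast hα0 _
  have h2 := hN₀ (orderOf (t ^ 2)) (by omega) (t ^ 2) (t / ((α (Fin.castLE hM l) : ℚ) : ℂ))
    ((α (Fin.castLE hM l)) ^ 2)⁻¹ hprim (by
      have := hα0 (Fin.castLE hM l)
      positivity) (by
      push_cast
      rw [div_pow, div_eq_mul_inv]) h1
  have h3 : (α (Fin.castLE hM l)) ^ 2 = 1 := by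
    rw [inv_eq_one] at h2
    exact h2
  apply hα1 (Fin.castLE hM l)
  have h4 : |α (Fin.castLE hM l)| ^ 2 = 1 := by
    rw [sq_abs]
    exact h3
  exact (pow_eq_one_iff_of_nonneg (abs_nonneg _) two_ne_zero).1 h4

end Pool.Agent.Y152.RP
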