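import Pool.Agent.Y152.RP.Stm2
import Pool.Agent.Y152.RP.Unity
import Pool.Agent.Y487.RP.Large
import Pool.Agent.Y407.RP.Log
import Pool.Agent.Y281.RP.Pars
import Pool.Agent.Y640.RP.PowA
import Pool.Agent.Y239.RP.SE
import Pool.Agent.Y239.RP.Cyc
import Pool.Agent.Y239.RP.Tot
import Pool.Agent.Y759.RP.Small
import Pool.Agent.Y474.RP.FinA
import Pool.Agent.Y152.RP.FinBx
import Pool.Agent.Y564.RP.Comb
import Pool.Agent.Y475.RP.Unit
import Pool.Agent.Y907.RP.StrB
import Pool.Agent.Y258.RP.StrA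
import Pool.Agent.Y232.RP.Arith
import Pool.Agent.Y405.RP.Cls

/-!
Project RP: the arithmetic theorems (helper file). Proofs of the parts by the seats helper232,
helper239, helper258, helper281, helper405, helper407, helper474, helper475, helper487, helper564,
helper640, helper759, helper815 and helper907.
-/

set_option autoImplicit false

namespace Pool.Agent.Y152.RP

/-- Roots of unity of large order. -/
theorem largeMain : LargeStm := Pool.Agent.Y487.RP.large Pool.Agent.Y407.RP.logSum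
  (Pool.Agent.Y281.RP.pow Pool.Agent.Y640.RP.powA) Pool.Agent.Y239.RP.Tot.tot
  Pool.Agent.Y239.RP.Cyc.cyc

/-- Roots of unity of bounded order. -/
theorem smallMain : SmallStm := Pool.Agent.Y759.RP.small Pool.Agent.Y474.RP.finA
  (Pool.Agent.Y152.RPx.FinB.finB Pool.Agent.Y405.RP.cls Pool.Agent.Y564.RP.comb)
  Pool.Agent.Y475.RP.unit Pool.Agent.Y239.RP.SE.expo

/-- For radical `t` and rational numbers `α l ≠ 0` with distinct absolute values the values of the
minimal polynomial of `t` at all but two of the `α l` have prime factors larger than `D`, with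
finitely many exceptions `t`. -/
theorem arithMain : ArithStm := Pool.Agent.Y232.RP.arith Pool.Agent.Y239.RP.SE.scale
  Pool.Agent.Y239.RP.SE.expo (Pool.Agent.Y907.RP.strB Pool.Agent.Y258.RP.strA) largeMain smallMain

/-- The same for roots of unity `t` and all the `α l`, `|α l| ≠ 0, 1`. -/
theorem unityMain {L M : ℕ} (hM : L ≤ M) (α : Fin M → ℚ) (hα0 : ∀ l, α l ≠ 0)
    (hα1 : ∀ l, |α l| ≠ 1) (D : ℕ) :
    {t : ℂ | (∃ N : ℕ, 0 < N ∧ t ^ N = 1) ∧ ¬ ∃ f : Fin L → Fin M, Function.Injective f ∧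
      ∃ G : Polynomial ℤ, Irreducible G ∧ Polynomial.aeval t G = 0 ∧
        ∀ l, ∃ p : ℕ, p.Prime ∧ D < p ∧ (p : ℤ) ∣ BD.Nv G (α (f l))}.Finite :=
  unity Pool.Agent.Y239.RP.SE.scale largeMain hM α hα0 hα1 D

end Pool.Agent.Y152.RP
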